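import Pool.Agent.helper97.KR.Spec

/-!
Row kr:CN4: connectedness after the insertion of a vertex of degree 4.
-/

set_option autoImplicit false

namespace Pool.Agent.helper97.KR

open Finset Classical

noncomputable section

theorem CN4_lift {V : Type} {r p : V → V → Prop} (h : ∀ u w, r u w → Relation.ReflTransGen p u w)
    {u w : V} (hp : Relation.ReflTransGen r u w) : Relation.ReflTransGen p u w := by
  induction hp with
  | refl => exact Relation.ReflTransGen.refl
  | tail _ hs ih => exact ih.trans (h _ _ hs)

theorem CN4_symm {V E : Type} (ends : E → Sym2 V) (F : Set E) {u w : V}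
    (h : Relation.ReflTransGen (Jn ends F) u w) : Relation.ReflTransGen (Jn ends F) w u := by
  induction h with
  | refl => exact Relation.ReflTransGen.refl
  | tail _ hs ih =>
    obtain ⟨e, he, h⟩ := hs
    exact Relation.ReflTransGen.head ⟨e, he, by rw [h]; exact Sym2.eq_swap⟩ ih

theorem CN4_base {V E : Type} (ends : E → Sym2 V) (F : Set E) (S : Finset V) (r : V)
    (h : ∀ u ∈ S, Relation.ReflTransGen (Jn ends F) u r) : Con ends S F := by
  intro u hu w hw
  exact (h u hu).trans (CN4_symm ends F (h w hw))

theorem CN4_one {V E : Type} (ends : E → Sym2 V) (F : Set E) {u w : V} {e : E} (he : e ∈ F)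
    (h : ends e = s(u, w)) : Relation.ReflTransGen (Jn ends F) u w :=
  Relation.ReflTransGen.single ⟨e, he, h⟩

theorem CN4_mono {V E : Type} (ends : E → Sym2 V) (F F' : Set E) (hF : F ⊆ F') {u w : V}
    (h : Relation.ReflTransGen (Jn ends F) u w) : Relation.ReflTransGen (Jn ends F') u w := by
  refine CN4_lift ?_ h
  rintro p q ⟨e, he, h⟩
  exact CN4_one ends F' (hF he) h

theorem CN4 : CN4_stmt := by
  intro V E ends S0 v a b c x1 x2 y W hv ha hb hc h1 h2 hy hW
  have hupd : ∀ e, e ≠ x1 → Function.update ends x1 s(a, b) e = ends e := fun e he =>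
    Function.update_of_ne he _ _
  have hself : Function.update ends x1 s(a, b) x1 = s(a, b) := Function.update_self _ _ _
  refine ⟨fun hx => ?_, fun hx => ?_, fun hx => ?_⟩
  · apply CN4_base ends _ _ c
    intro u hu
    rw [Finset.mem_insert] at hu
    rcases hu with hu | hu
    · rw [hu]
      exact CN4_one ends _ (Set.mem_insert y W) hy
    · have hp := hW u hu c hc
      refine CN4_lift ?_ hp
      rintro p q ⟨e, he, h⟩
      have hne : e ≠ x1 := fun h' => hx (h' ▸ he)
      rw [hupd e hne] at h
      exact CN4_one ends _ (Set.mem_insert_of_mem _ he) h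
  · apply CN4_base ends _ _ a
    have hva : Relation.ReflTransGen (Jn ends (insert x2 W)) v a :=
      CN4_one ends _ (Set.mem_insert_of_mem _ hx) h1
    have hvb : Relation.ReflTransGen (Jn ends (insert x2 W)) v b :=
      CN4_one ends _ (Set.mem_insert x2 W) h2
    have hab : Relation.ReflTransGen (Jn ends (insert x2 W)) a b :=
      (CN4_symm ends _ hva).trans hvb
    intro u hu
    rw [Finset.mem_insert] at hu
    rcases hu with hu | hu
    · rw [hu]
      exact hva
    · have hp := hW u hu a ha
      refine CN4_lift ?_ hp
      rintro p q ⟨e, he, h⟩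
      by_cases hne : e = x1
      · rw [hne, hself] at h
        rcases Sym2.eq_iff.1 h with ⟨h3, h4⟩ | ⟨h3, h4⟩
        · show Relation.ReflTransGen (Jn ends (insert x2 W)) p q
          rw [← h3, ← h4]
          exact hab
        · show Relation.ReflTransGen (Jn ends (insert x2 W)) p q
          rw [← h3, ← h4]
          exact CN4_symm ends _ hab
      · rw [hupd e hne] at h
        exact CN4_one ends _ (Set.mem_insert_of_mem _ he) h
  · have key0 : ∀ u, Relation.ReflTransGen (Jn (Function.update ends x1 s(a, b)) W) u a →
        Relation.ReflTransGen (Jn ends (W \ {x1})) u a ∨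
        Relation.ReflTransGen (Jn ends (W \ {x1})) u b := by
      intro u hp
      induction hp using Relation.ReflTransGen.head_induction_on with
      | refl => exact Or.inl Relation.ReflTransGen.refl
      | @head p q hstep _ ih =>
        obtain ⟨e, he, h⟩ := hstep
        by_cases hne : e = x1
        · rw [hne, hself] at h
          rcases Sym2.eq_iff.1 h with ⟨h3, h4⟩ | ⟨h3, h4⟩
          · left
            rw [← h3]
          · right
            rw [← h4]
        · rw [hupd e hne] at h
          have hs : Relation.ReflTransGen (Jn ends (W \ {x1})) p q :=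
            CN4_one ends _ ⟨he, hne⟩ h
          rcases ih with ih | ih
          · exact Or.inl (hs.trans ih)
          · exact Or.inr (hs.trans ih)
    have key : ∀ u ∈ S0, Relation.ReflTransGen (Jn ends (W \ {x1})) u a ∨
        Relation.ReflTransGen (Jn ends (W \ {x1})) u b := fun u hu => key0 u (hW u hu a ha)
    rcases key c hc with hca | hcb
    · right
      have hsub : W \ {x1} ⊆ insert y (insert x2 (W \ {x1})) := fun e he =>
        Set.mem_insert_of_mem _ (Set.mem_insert_of_mem _ he)
      have hvb : Relation.ReflTransGen (Jn ends (insert y (insert x2 (W \ {x1})))) v b :=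
        CN4_one ends _ (Set.mem_insert_of_mem _ (Set.mem_insert _ _)) h2
      have hvc : Relation.ReflTransGen (Jn ends (insert y (insert x2 (W \ {x1})))) v c :=
        CN4_one ends _ (Set.mem_insert _ _) hy
      have hva := hvc.trans (CN4_mono ends _ _ hsub hca)
      apply CN4_base ends _ _ v
      intro u hu
      rw [Finset.mem_insert] at hu
      rcases hu with hu | hu
      · rw [hu]
      · rcases key u hu with h | h
        · exact (CN4_mono ends _ _ hsub h).trans (CN4_symm ends _ hva)
        · exact (CN4_mono ends _ _ hsub h).trans (CN4_symm ends _ hvb)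
    · left
      have hsub : W \ {x1} ⊆ insert y (insert x1 (W \ {x1})) := fun e he =>
        Set.mem_insert_of_mem _ (Set.mem_insert_of_mem _ he)
      have hva : Relation.ReflTransGen (Jn ends (insert y (insert x1 (W \ {x1})))) v a :=
        CN4_one ends _ (Set.mem_insert_of_mem _ (Set.mem_insert _ _)) h1
      have hvc : Relation.ReflTransGen (Jn ends (insert y (insert x1 (W \ {x1})))) v c :=
        CN4_one ends _ (Set.mem_insert _ _) hy
      have hvb := hvc.trans (CN4_mono ends _ _ hsub hcb)
      apply CN4_base ends _ _ v
      intro u hu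
      rw [Finset.mem_insert] at hu
      rcases hu with hu | hu
      · rw [hu]
      · rcases key u hu with h | h
        · exact (CN4_mono ends _ _ hsub h).trans (CN4_symm ends _ hva)
        · exact (CN4_mono ends _ _ hsub h).trans (CN4_symm ends _ hvb)

end

end Pool.Agent.helper97.KR
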